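import Pool.Agent.K7.H28.CO.O1
import Pool.Agent.K7.H28.CB.C3
import Pool.Agent.K7.H28.AF.Euclid

/-!
# Mollification of coarsely monotone maps of open sets
-/

set_option autoImplicit false

open Set Filter Topology Metric Function MeasureTheory
open scoped Manifold ContDiff

noncomputable section

namespace Pool.Agent.K7.H28.CO

open Pool.Agent.Y522 Pool.Agent.Y954.SH Pool.Agent.K7.H28.CB

variable {n : ℕ}

/-- a continuous extension -/
theorem exists_extension {V C : Set (E n)} (hV : IsOpen V) (hC : IsCompact C) (hCV : C ⊆ V)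
    {H : E n → E n} (hH : ContinuousOn H V) : ∃ (G : E n → E n) (L : Set (E n)), Continuous G ∧
      C ⊆ interior L ∧ L ⊆ V ∧ ∀ x ∈ L, G x = H x := by
  obtain ⟨L, hL, hCL, hLV⟩ := exists_compact_between hC hV hCV
  obtain ⟨L', hL', hLL', hL'V⟩ := exists_compact_between hL hV hLV
  obtain ⟨χ, hχ0, hχ1, -⟩ := exists_continuous_zero_one_of_isClosed
    (s := (interior L')ᶜ) (t := L) isOpen_interior.isClosed_compl hL.isClosed
    (Set.disjoint_left.2 fun x hx hx' => hx (hLL' hx'))
  refine ⟨fun x => χ x • H x, L, ?_, hCL, hLV, fun x hx => ?_⟩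
  · rw [continuous_iff_continuousAt]
    intro x
    by_cases hx : x ∈ V
    · exact χ.continuous.continuousAt.smul (hH.continuousAt (hV.mem_nhds hx))
    · have h1 : ∀ᶠ y in 𝓝 x, y ∉ L' :=
        hL'.isClosed.isOpen_compl.mem_nhds fun h => hx (hL'V h)
      have h2 : (fun y => χ y • H y) =ᶠ[𝓝 x] fun _ => 0 := by
        filter_upwards [h1] with y hy
        have h3 : χ y = 0 := hχ0 fun h => hy (interior_subset h)
        rw [h3, zero_smul]
      exact (continuousAt_const (y := (0 : E n))).congr h2.symm
  · have h3 : χ x = 1 := hχ1 hx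
    simp only [h3, one_smul]

/-- the mollification of a coarsely monotone map of an open set -/
theorem coarse_open (n : ℕ) : ∃ κ : ℝ, 0 < κ ∧ ∀ (V : Set (E n)) (H : E n → E n)
    (r : E n → ℝ), IsOpen V → ContinuousOn H V → ContDiff ℝ ∞ r → (∀ x, 0 ≤ r x) →
    IsCompact (tsupport r) → tsupport r ⊆ V → (∀ x, 0 < r x → closedBall x (r x) ⊆ V) →
    (∀ x ∈ V, r x = 0 → LD n H x) → (∀ x, 0 < r x → CoarseAt κ H r x) →
    ∃ F : E n → E n, (∀ x, x ∉ tsupport r → F x = H x) ∧ ∀ x ∈ V, LD n F x := by
  classical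
  obtain ⟨κ, hκ0, hκ1, hκ⟩ := coarse_pos n
  refine ⟨κ, hκ0, ?_⟩
  intro V H r hV hHc hr hr0 hrc hrV hball hrz hcr
  -- the union of the balls
  obtain ⟨C, hCd⟩ : ∃ C : Set (E n), C = (fun p : E n × E n => p.1 + r p.1 • p.2) ''
      (tsupport r ×ˢ closedBall (0 : E n) 1) := ⟨_, rfl⟩
  have hC : IsCompact C := by
    rw [hCd]
    refine (hrc.prod (isCompact_closedBall _ _)).image ?_
    exact continuous_fst.add ((hr.continuous.comp continuous_fst).smul continuous_snd)
  have hCV : C ⊆ V := by
    rw [hCd]
    rintro _ ⟨⟨x, s⟩, ⟨hx, hs⟩, rfl⟩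
    rw [mem_closedBall_zero_iff] at hs
    simp only
    rcases eq_or_lt_of_le (hr0 x) with h | h
    · rw [← h, zero_smul, add_zero]
      exact hrV hx
    · refine hball x h ?_
      rw [mem_closedBall, dist_eq_norm, add_sub_cancel_left, norm_smul,
        Real.norm_of_nonneg h.le]
      nlinarith
  have hsupp : ∀ x, 0 < r x → x ∈ tsupport r := fun x hx =>
    subset_tsupport _ (mem_support.2 hx.ne')
  have hCb : ∀ x, 0 < r x → closedBall x (r x) ⊆ C := by
    intro x hx y hy
    rw [mem_closedBall, dist_eq_norm] at hy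
    rw [hCd]
    refine ⟨(x, (r x)⁻¹ • (y - x)), ⟨hsupp x hx, ?_⟩, ?_⟩
    · rw [mem_closedBall_zero_iff]
      simp only
      rw [norm_smul, norm_inv, Real.norm_of_nonneg hx.le, inv_mul_le_iff₀ hx, mul_one]
      exact hy
    · simp only
      rw [smul_smul, mul_inv_cancel₀ hx.ne', one_smul, add_sub_cancel]
  have hsC : tsupport r ⊆ C := by
    intro x hx
    rw [hCd]
    refine ⟨(x, 0), ⟨hx, mem_closedBall_self zero_le_one⟩, ?_⟩
    simp only [smul_zero, add_zero]
  obtain ⟨G, L, hGc, hCL, hLV, hGL⟩ := exists_extension hV hC hCV hHc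
  have hCsub : C ⊆ L := hCL.trans interior_subset
  obtain ⟨c, hcd⟩ : ∃ c : E n → ℝ, c = fun x => r x / 5 := ⟨_, rfl⟩
  have hcs : ContDiff ℝ ∞ c := by
    rw [hcd]
    exact hr.div_const 5
  have hc0 : ∀ z, 0 ≤ c z := fun z => by
    rw [hcd]
    have := hr0 z
    positivity
  have hc5 : ∀ z, 5 * c z = r z := fun z => by
    rw [hcd]
    simp only
    ring
  obtain ⟨R, hR⟩ : ∃ R : ℝ, ∀ z, c z ≤ R := by
    obtain ⟨M, hM⟩ := hrc.exists_bound_of_continuousOn hr.continuous.continuousOn
    refine ⟨max M 0, fun z => ?_⟩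
    by_cases hz : z ∈ tsupport r
    · have h1 := hM z hz
      rw [Real.norm_of_nonneg (hr0 z)] at h1
      have h2 := hc5 z
      have h3 := hc0 z
      exact le_trans (by linarith) (le_max_left _ _)
    · have h1 : r z = 0 := image_eq_zero_of_notMem_tsupport hz
      have h2 := hc5 z
      rw [h1] at h2
      exact le_trans (by linarith) (le_max_right _ _)
  have hin : ∀ z, 0 < c z → ∀ s : E n, ‖s‖ < 1 → z + c z • s ∈ C := by
    intro z hz s hs
    have h1 : 0 < r z := by
      have := hc5 z
      linarith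
    refine hCb z h1 ?_
    rw [mem_closedBall, dist_eq_norm, add_sub_cancel_left, norm_smul, Real.norm_of_nonneg hz.le]
    have := hc5 z
    nlinarith
  have hM1 : ∀ z, 0 < c z → ContDiffAt ℝ ∞ (Moll n G c) z := fun z hz =>
    Pool.Agent.K7.H28.AF.moll_pos' hC hGc.continuousOn hcs hR hin hz
  obtain ⟨F, hFd⟩ : ∃ F : E n → E n, F = (interior L).piecewise (Moll n G c) H := ⟨_, rfl⟩
  have hFin : ∀ z ∈ interior L, F z = Moll n G c z := fun z hz => by
    rw [hFd]
    exact piecewise_eq_of_mem _ _ _ hz
  have hFout : ∀ z, z ∉ tsupport r → F z = H z := by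
    intro z hz
    have hrz' : r z = 0 := image_eq_zero_of_notMem_tsupport hz
    by_cases h : z ∈ interior L
    · rw [hFin z h, moll_const (by rw [hcd]; simp only; rw [hrz', zero_div]),
        hGL z (interior_subset h)]
    · rw [hFd]
      exact piecewise_eq_of_notMem _ _ _ h
  refine ⟨F, hFout, fun z hz => ?_⟩
  by_cases hzL : z ∈ interior L
  · have hev : F =ᶠ[𝓝 z] Moll n G c := by
      filter_upwards [isOpen_interior.mem_nhds hzL] with y hy
      exact hFin y hy
    have key : LD n (Moll n G c) z := by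
      rcases eq_or_lt_of_le (hr0 z) with h | h
      · -- the radius is zero
        have hHz := hrz z hz h.symm
        have hcz : c z = 0 := by
          rw [hcd]
          simp only
          rw [← h, zero_div]
        have h2 : G =ᶠ[𝓝 z] H := by
          filter_upwards [isOpen_interior.mem_nhds hzL] with y hy
          exact hGL y (interior_subset hy)
        have h3 : LD n G z := hHz.congr h2
        have h4 : ∀ᶠ y in 𝓝 z, LD n G y := h3.eventually
        have h5 : ∀ᶠ y in 𝓝 z, ContDiffAt ℝ ∞ (Moll n G c) y := by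
          filter_upwards [h4] with y hy2
          rcases eq_or_lt_of_le (hc0 y) with hy3 | hy3
          · exact (moll_null hcs hc0 hy3.symm (hy2.eventually.mono fun w hw => hw.contDiffAt)).1
          · exact hM1 y hy3
        refine LD_of_bij h5 ?_
        rw [(moll_null hcs hc0 hcz (h4.mono fun w hw => hw.contDiffAt)).2]
        exact h3.bij.2
      · have hcz : 0 < c z := by
          have := hc5 z
          linarith
        have h5 : ∀ᶠ y in 𝓝 z, ContDiffAt ℝ ∞ (Moll n G c) y := by
          have h6 : ∀ᶠ y in 𝓝 z, 0 < c y :=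
            hcs.continuous.continuousAt.eventually (lt_mem_nhds hcz)
          filter_upwards [h6] with y hy
          exact hM1 y hy
        refine LD_of_bij h5 ?_
        have hd : DifferentiableAt ℝ (Moll n G c) z := (h5.self_of_nhds).differentiableAt (by simp)
        have hinj : Function.Injective (fderiv ℝ (Moll n G c) z) := by
          rw [injective_iff_map_eq_zero]
          intro v hv
          by_contra hne
          have hu : ‖(‖v‖⁻¹ : ℝ) • v‖ = 1 := by
            rw [norm_smul, norm_inv, norm_norm, inv_mul_cancel₀ (norm_ne_zero_iff.2 hne)]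
          obtain ⟨u, hud⟩ : ∃ u : E n, u = (‖v‖⁻¹ : ℝ) • v := ⟨_, rfl⟩
          rw [← hud] at hu
          have hfu : fderiv ℝ (Moll n G c) z u = 0 := by
            rw [hud, map_smul, hv, smul_zero]
          obtain ⟨m, hm0, hm1, hml, hm⟩ := hcr z h
          obtain ⟨ℓ, hℓ1, hℓ2⟩ := hm u hu
          have hGy : ∀ y, ‖y - z‖ ≤ r z → G y = H y := fun y hy =>
            hGL y (hCsub (hCb z h (by rwa [mem_closedBall, dist_eq_norm])))
          have hGz : G z = H z := hGy z (by rw [sub_self, norm_zero]; exact h.le)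
          have hpos := hκ G c z u ℓ m hGc hcz hm0 hm1 hu (fun z' hz' => by
            have h1 := hml z' (by rw [← hc5]; exact hz')
            have h2 : |c z' - c z| = |r z' - r z| / 5 := by
              rw [hcd]
              simp only
              rw [← sub_div, abs_div]
              norm_num
            rw [h2]
            have h3 : 0 ≤ κ * m * ‖z' - z‖ := by positivity
            linarith) (fun y hy => by
              rw [hc5] at hy ⊢
              rw [hGy y hy, hGz]
              exact hℓ1 y hy) (fun y t ht hy hy' => by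
                rw [hc5] at hy hy' ⊢
                rw [hGy y hy, hGy _ hy']
                exact hℓ2 y t ht hy hy')
          have hder : HasDerivAt (fun s : ℝ => ℓ (Moll n G c (z + s • u))) 0 0 := by
            have g1 : HasFDerivAt (Moll n G c) (fderiv ℝ (Moll n G c) z) (z + (0 : ℝ) • u) := by
              rw [zero_smul, add_zero]
              exact hd.hasFDerivAt
            have g2 : HasDerivAt (fun s : ℝ => z + s • u) u 0 := by
              have := ((hasDerivAt_id (0 : ℝ)).smul_const u).const_add z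
              simpa using this
            have g3 := (ℓ.hasFDerivAt.comp_hasDerivAt (0 : ℝ) (g1.comp_hasDerivAt (0 : ℝ) g2))
            rw [hfu, map_zero] at g3
            exact g3
          have hlim := hder.tendsto_slope_zero_right
          have hge : ∀ᶠ s : ℝ in 𝓝[>] 0, m / 2 ≤
              s⁻¹ • (ℓ (Moll n G c (z + (0 + s) • u)) - ℓ (Moll n G c (z + (0 : ℝ) • u))) := by
            have g1 : ∀ᶠ s : ℝ in 𝓝[>] 0, s < c z / 2 :=
              mem_nhdsWithin_of_mem_nhds (gt_mem_nhds (by positivity))
            filter_upwards [g1, self_mem_nhdsWithin] with s hs hs0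
            have hs0' : (0 : ℝ) < s := hs0
            have g2 := hpos s hs0' hs.le
            rw [map_sub] at g2
            rw [zero_add, zero_smul, add_zero, smul_eq_mul, inv_mul_eq_div, le_div_iff₀ hs0']
            exact g2
          have hfin := ge_of_tendsto hlim hge
          linarith
        exact ⟨hinj, (LinearMap.injective_iff_surjective
          (f := (fderiv ℝ (Moll n G c) z).toLinearMap)).1 hinj⟩
    exact key.congr hev
  · have hzs : z ∉ tsupport r := fun h => hzL (hCL (hsC h))
    have hrz' : r z = 0 := image_eq_zero_of_notMem_tsupport hzs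
    refine (hrz z hz hrz').congr ?_
    filter_upwards [(isClosed_tsupport r).isOpen_compl.mem_nhds hzs] with y hy
    exact hFout y hy

/-- replacement of a coarsely monotone embedding of an open set by a smooth one -/
theorem coarse_replace (n : ℕ) [Nontrivial (E n)] : ∃ κ : ℝ, 0 < κ ∧ ∀ (V : Set (E n))
    (H : E n → E n) (r : E n → ℝ), IsOpen V → ContinuousOn H V → InjOn H V → ContDiff ℝ ∞ r →
    (∀ x, 0 ≤ r x) → IsCompact (tsupport r) → tsupport r ⊆ V →
    (∀ x, 0 < r x → closedBall x (r x) ⊆ V) →
    (∀ x ∈ V, r x = 0 → LD n H x) → (∀ x, 0 < r x → CoarseAt κ H r x) →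
    ∃ F : E n → E n, (∀ x, x ∉ tsupport r → F x = H x) ∧ (∀ x ∈ V, LD n F x) ∧ InjOn F V ∧
      F '' V = H '' V := by
  obtain ⟨κ, hκ, key⟩ := coarse_open n
  refine ⟨κ, hκ, fun V H r hV hHc hHi hr hr0 hrc hrV hball hrz hcr => ?_⟩
  obtain ⟨F, h1, h2⟩ := key V H r hV hHc hr hr0 hrc hrV hball hrz hcr
  obtain ⟨h3, h4⟩ := fillO hV hrc hrV hHc hHi h2 fun x _ hx => h1 x hx
  exact ⟨F, h1, h2, h3, h4⟩

end Pool.Agent.K7.H28.CO
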