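import Pool.Agent.K7.H28.AF.TameDefs

/-!
# A class of homeomorphisms between smooth 4-manifolds: coarsely monotone maps
-/

set_option autoImplicit false

open Set Filter Topology Metric Function
open scoped Manifold ContDiff

noncomputable section

namespace Pool.Agent.K7.H28.CO.T4

open Pool.Agent.K7.H28.AF.T4

attribute [-instance] TopCat.of.chartedSpace

/-- The homeomorphism `g` between the open subsets `V` and `W` of `ℝ⁴` is coarsely monotone at `x` at the
scale `r x`, with precision `κ`: for some `0 < m ≤ 1` the function `r` varies slowly near `x` (with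
Lipschitz constant `κ m`), and for every unit vector `u` there is a linear functional `ℓ` such that, on the
ball `B` of radius `r x` about `x`, `ℓ (g y - g x)` is bounded by `r x` and the increments of `ℓ ∘ g` in the
direction `u` are at least `m t - κ m (r x)`, where `t` is the length of the step. Nothing is assumed on
steps of length less than `κ (r x)`. -/
def CoarselyMonotoneAt (κ : ℝ) {V W : TopologicalSpace.Opens R4}
    (g : openSubset V ≃ₜ openSubset W) (r : R4 → ℝ) (x : openSubset V) : Prop :=
  ∃ m : ℝ, 0 < m ∧ m ≤ 1 ∧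
    (∀ y : R4, ‖y - incl V x‖ ≤ r (incl V x) →
      |r y - r (incl V x)| ≤ κ * m * ‖y - incl V x‖) ∧
    ∀ u : R4, ‖u‖ = 1 → ∃ ℓ : R4 →L[ℝ] ℝ,
      (∀ y : openSubset V, ‖incl V y - incl V x‖ ≤ r (incl V x) →
        |ℓ (incl W (g y) - incl W (g x))| ≤ r (incl V x)) ∧
      ∀ (y y' : openSubset V) (t : ℝ), 0 < t → ‖incl V y - incl V x‖ ≤ r (incl V x) →
        ‖incl V y' - incl V x‖ ≤ r (incl V x) → incl V y' = incl V y + t • u →
        m * t - κ * m * r (incl V x) ≤ ℓ (incl W (g y') - incl W (g y))

/-- `g` is coarsely monotone at one variable scale: there is a smooth function `r ≥ 0` with compact support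
in `V`, such that the balls of radius `r x` about `x` are contained in `V`, `g` is a local diffeomorphism at
the points with `r x = 0` and `g` is coarsely monotone at `x` at the scale `r x` if `r x > 0` -/
def CoarselyMonotone (κ : ℝ) {V W : TopologicalSpace.Opens R4}
    (g : openSubset V ≃ₜ openSubset W) : Prop :=
  ∃ r : R4 → ℝ, ContDiff ℝ ∞ r ∧ (∀ x, 0 ≤ r x) ∧ IsCompact (tsupport r) ∧
    tsupport r ⊆ (V : Set R4) ∧ (∀ x, 0 < r x → closedBall x (r x) ⊆ (V : Set R4)) ∧
    (∀ x : openSubset V, r (incl V x) = 0 → LocDiff g x) ∧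
    ∀ x : openSubset V, 0 < r (incl V x) → CoarselyMonotoneAt κ g r x

/-- The least class of homeomorphisms of smooth 4-manifolds which contains the class `Tame ε₀` and the
homeomorphisms between open subsets of `ℝ⁴` which are coarsely monotone at one variable scale, and which is
closed under inverses, compositions and extensions (`g` belongs to the class if the points at which it is
not a local diffeomorphism belong to an open set on which it restricts to a member of the class). -/
inductive Coarse (ε₀ κ : ℝ) : (M N : Mfd4) → (M ≃ₜ N) → Prop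
  | tame {M N : Mfd4} (g : M ≃ₜ N) : Tame ε₀ M N g → Coarse ε₀ κ M N g
  | monotone {V W : TopologicalSpace.Opens R4} (g : openSubset V ≃ₜ openSubset W) :
      CoarselyMonotone κ g → Coarse ε₀ κ (openSubset V) (openSubset W) g
  | inverse {M N : Mfd4} (g : M ≃ₜ N) : Coarse ε₀ κ M N g → Coarse ε₀ κ N M g.symm
  | composition {M N P : Mfd4} (g : M ≃ₜ N) (h : N ≃ₜ P) :
      Coarse ε₀ κ M N g → Coarse ε₀ κ N P h → Coarse ε₀ κ M P (g.trans h)
  | extension {M N M' N' : Mfd4} (g : M ≃ₜ N) (g' : M' ≃ₜ N') (i : M' → M) (j : N' → N) :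
      IsOpenEmbedding i → IsOpenEmbedding j → (∀ x, LocDiff i x) → (∀ y, LocDiff j y) →
      (∀ x, j (g' x) = g (i x)) → bad g ⊆ range i → Coarse ε₀ κ M' N' g' → Coarse ε₀ κ M N g

end Pool.Agent.K7.H28.CO.T4
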