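import Pool.Agent.K7.H28.CO.O2
import Pool.Agent.K7.H28.CO.O3
import Pool.Agent.K7.H28.AF.Tame

/-!
# The homeomorphisms of the class can be replaced by diffeomorphisms
-/

set_option autoImplicit false

open Set Filter Topology Metric Function
open scoped Manifold ContDiff

noncomputable section

namespace Pool.Agent.K7.H28.CO.T4

open Pool.Agent.K7.H28.AF.T4

attribute [-instance] TopCat.of.chartedSpace

/-- there is a diffeomorphism which agrees with `g` off a compact set -/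
def Smoothable (M N : Mfd4) (g : M ≃ₜ N) : Prop :=
  ∃ (Φ : Diffeomorph (𝓡 4) (𝓡 4) M N ∞) (C : Set M), IsCompact C ∧ ∀ x, x ∉ C → Φ x = g x

theorem smoothable_symm {M N : Mfd4} (g : M ≃ₜ N) (hg : Smoothable M N g) :
    Smoothable N M g.symm := by
  obtain ⟨Φ, C, hC, hoff⟩ := hg
  refine ⟨Φ.symm, g '' C, hC.image g.continuous, fun y hy => ?_⟩
  have h1 : g.symm y ∉ C := fun h => hy ⟨_, h, g.apply_symm_apply y⟩
  have h2 := hoff _ h1
  rw [g.apply_symm_apply] at h2
  rw [← h2, Φ.symm_apply_apply, h2]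

theorem smoothable_trans {M N P : Mfd4} (g : M ≃ₜ N) (h : N ≃ₜ P)
    (hg : Smoothable M N g) (hh : Smoothable N P h) : Smoothable M P (g.trans h) := by
  obtain ⟨Φ, C, hC, hoff⟩ := hg
  obtain ⟨Ψ, D, hD, hoff2⟩ := hh
  refine ⟨Φ.trans Ψ, C ∪ g.symm '' D, hC.union (hD.image g.symm.continuous), fun x hx => ?_⟩
  have h1 : Φ x = g x := hoff x fun h => hx (Or.inl h)
  have h2 : g x ∉ D := fun h => hx (Or.inr ⟨_, h, g.symm_apply_apply x⟩)
  change Ψ (Φ x) = h (g x)
  rw [h1, hoff2 _ h2]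

theorem smoothable_extend {M N M' N' : Mfd4} (g : M ≃ₜ N) (g' : M' ≃ₜ N') (i : M' → M)
    (j : N' → N) (hi : IsOpenEmbedding i) (hid : ∀ x, LocDiff i x) (hj : Injective j)
    (hjd : ∀ y, LocDiff j y) (hij : ∀ x, j (g' x) = g (i x)) (hb : bad g ⊆ range i)
    (H : Smoothable M' N' g') : Smoothable M N g := by
  classical
  obtain ⟨Φ', C', hC', hoff'⟩ := H
  have hT2 : T2Space M := M.hausdorff
  obtain ⟨Φ, hΦd⟩ : ∃ Φ : M → N, Φ = fun x => if h : x ∈ range i then j (Φ' h.choose) else g x :=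
    ⟨_, rfl⟩
  have hΦi : ∀ z, Φ (i z) = j (Φ' z) := by
    intro z
    have h : i z ∈ range i := ⟨z, rfl⟩
    have h1 : h.choose = z := hi.injective h.choose_spec
    rw [hΦd]
    change (if h : i z ∈ range i then j (Φ' h.choose) else g (i z)) = _
    rw [dif_pos h, h1]
  have hΦn : ∀ x, x ∉ range i → Φ x = g x := fun x hx => by rw [hΦd]; exact dif_neg hx
  have hoff : ∀ x, x ∉ i '' C' → Φ x = g x := by
    intro x hx
    by_cases h : x ∈ range i
    · obtain ⟨z, rfl⟩ := h
      rw [hΦi, hoff' z fun hz => hx ⟨z, hz, rfl⟩, hij]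
    · exact hΦn x h
  have hinj : Injective Φ := by
    intro x y hxy
    by_cases h : x ∈ range i <;> by_cases h' : y ∈ range i
    · obtain ⟨z, rfl⟩ := h
      obtain ⟨w, rfl⟩ := h'
      rw [hΦi, hΦi] at hxy
      rw [Φ'.injective (hj hxy)]
    · obtain ⟨z, rfl⟩ := h
      rw [hΦi, hΦn y h'] at hxy
      exfalso
      apply h'
      refine ⟨g'.symm (Φ' z), ?_⟩
      apply g.injective
      rw [← hij, g'.apply_symm_apply, hxy]
    · obtain ⟨w, rfl⟩ := h'
      rw [hΦi, hΦn x h] at hxy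
      exfalso
      apply h
      refine ⟨g'.symm (Φ' w), ?_⟩
      apply g.injective
      rw [← hij, g'.apply_symm_apply, hxy]
    · rw [hΦn x h, hΦn y h'] at hxy
      exact g.injective hxy
  have hsurj : Surjective Φ := by
    intro y
    by_cases h : g.symm y ∈ range i
    · obtain ⟨z, hz⟩ := h
      refine ⟨i (Φ'.symm (g' z)), ?_⟩
      rw [hΦi, Φ'.apply_symm_apply, hij, hz, g.apply_symm_apply]
    · refine ⟨g.symm y, ?_⟩
      rw [hΦn _ h, g.apply_symm_apply]
  have hLD : ∀ x, LocDiff Φ x := by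
    intro x
    by_cases h : x ∈ range i
    · obtain ⟨z, rfl⟩ := h
      have hN : Nonempty M' := ⟨z⟩
      obtain ⟨k, hk⟩ : ∃ k : M → M', ∀ z, k (i z) = z :=
        ⟨invFun i, leftInverse_invFun hi.injective⟩
      have h1 : Pool.Agent.Y522.LD 4 k (i z) :=
        Pool.Agent.Y522.LD.inverse isOpen_univ (fun x _ => hid x) (fun x _ => hk x) (mem_univ z)
      have h2 : Pool.Agent.Y522.LD 4 (fun w => j (Φ' w)) (k (i z)) := by
        rw [hk]
        exact Pool.Agent.Y522.LD.comp_fun (g := j) (f := Φ') (hjd _) (Φ'.isLocalDiffeomorph z)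
      have h3 : Pool.Agent.Y522.LD 4 (fun x => j (Φ' (k x))) (i z) :=
        Pool.Agent.Y522.LD.comp_fun (g := fun w => j (Φ' w)) (f := k) h2 h1
      refine Pool.Agent.Y522.LD.congr h3 ?_
      filter_upwards [hi.isOpen_range.mem_nhds ⟨z, rfl⟩] with y hy
      obtain ⟨w, rfl⟩ := hy
      rw [hΦi, hk]
    · have h1 : x ∉ i '' C' := fun ⟨z, _, hz⟩ => h ⟨z, hz⟩
      have h2 : LocDiff g x := by
        by_contra hn
        exact h (hb hn)
      refine Pool.Agent.Y522.LD.congr h2 ?_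
      filter_upwards [(hC'.image hi.continuous).isClosed.isOpen_compl.mem_nhds h1] with y hy
      exact hoff y hy
  have hl : IsLocalDiffeomorph (𝓡 4) (𝓡 4) ∞ Φ := hLD
  exact ⟨hl.diffeomorphOfBijective ⟨hinj, hsurj⟩, i '' C', hC'.image hi.continuous, hoff⟩

theorem smoothable_tame {ε₀ : ℝ} (happ : ∀ (M N : Mfd4) (g : M ≃ₜ N), Tame ε₀ M N g →
    Approximable M N g) {M N : Mfd4} (g : M ≃ₜ N) (hg : Tame ε₀ M N g) : Smoothable M N g := by
  obtain ⟨Φ, C, hC, -, hoff⟩ := happ M N g hg univ isOpen_univ fun x => mem_univ _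
  exact ⟨Φ, C, hC, hoff⟩

/-- coarsely monotone homeomorphisms -/
theorem smoothable_monotone : ∃ κ : ℝ, 0 < κ ∧ ∀ (V W : TopologicalSpace.Opens R4)
    (g : openSubset V ≃ₜ openSubset W), CoarselyMonotone κ g →
    Smoothable (openSubset V) (openSubset W) g := by
  classical
  have hnt : Nontrivial R4 := inferInstance
  obtain ⟨κ, hκ, key⟩ := Pool.Agent.K7.H28.CO.coarse_replace 4
  refine ⟨κ, hκ, ?_⟩
  rintro V W g ⟨r, hr, hr0, hrc, hrV, hball, hrz, hcr⟩
  obtain ⟨G, hGd⟩ : ∃ G : R4 → R4, G = fun z =>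
      if h : z ∈ V then incl W (g (show openSubset V from (⟨z, h⟩ : V))) else 0 := ⟨_, rfl⟩
  have hGV : ∀ x : openSubset V, G (incl V x) = incl W (g x) := by
    intro x
    rw [hGd]
    exact dif_pos (show V from x).2
  have hin : ∀ z ∈ (V : Set R4), ∃ x : openSubset V, incl V x = z := fun z hz =>
    ⟨(⟨z, hz⟩ : V), rfl⟩
  have hmem : ∀ x : openSubset V, incl V x ∈ (V : Set R4) := fun x => (show V from x).2
  have hiV : Injective (incl V) := Subtype.val_injective
  have hiW : Injective (incl W) := Subtype.val_injective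
  have hcW : Continuous (incl W) := continuous_subtype_val
  have hGc : ContinuousOn G (V : Set R4) := by
    rw [continuousOn_iff_continuous_domRestrict]
    have : (V : Set R4).domRestrict G = fun x : V => incl W (g (show openSubset V from x)) := by
      funext x
      exact hGV x
    rw [this]
    exact hcW.comp g.continuous
  have hGi : InjOn G (V : Set R4) := by
    intro a ha b hb hab
    obtain ⟨x, rfl⟩ := hin a ha
    obtain ⟨y, rfl⟩ := hin b hb
    rw [hGV, hGV] at hab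
    rw [g.injective (hiW hab)]
  have hLW : ∀ y : openSubset W, Pool.Agent.Y522.LD 4 (incl W) y := fun y =>
    Pool.Agent.R769.LD_val W y
  have hGLD : ∀ x : openSubset V, LocDiff g x → Pool.Agent.Y522.LD 4 G (incl V x) := by
    intro x hx
    apply Pool.Agent.R769.LD_of_restrict V
    have h1 : Pool.Agent.Y522.LD 4 (fun z : openSubset V => incl W (g z)) x :=
      Pool.Agent.Y522.LD.comp_fun (g := incl W) (f := g) (hLW _) hx
    exact h1.congr (Eventually.of_forall fun z => hGV z)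
  have hcr' : ∀ x, 0 < r x → Pool.Agent.K7.H28.CB.CoarseAt κ G r x := by
    intro z hz
    obtain ⟨x, rfl⟩ := hin z (hrV (subset_tsupport _ (mem_support.2 hz.ne')))
    obtain ⟨m, hm0, hm1, hm2, hm3⟩ := hcr x hz
    refine ⟨m, hm0, hm1, hm2, fun u hu => ?_⟩
    obtain ⟨ℓ, hℓ1, hℓ2⟩ := hm3 u hu
    have hbx : ∀ y : R4, ‖y - incl V x‖ ≤ r (incl V x) → ∃ y' : openSubset V, incl V y' = y :=
      fun y hy => hin y (hball _ hz (by rwa [mem_closedBall, dist_eq_norm]))
    refine ⟨ℓ, fun y hy => ?_, fun y t ht hy hy' => ?_⟩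
    · obtain ⟨y', rfl⟩ := hbx y hy
      rw [hGV, hGV]
      exact hℓ1 y' hy
    · obtain ⟨a, rfl⟩ := hbx y hy
      obtain ⟨b, hb⟩ := hbx _ hy'
      rw [← hb] at hy'
      rw [← hb, hGV, hGV]
      exact hℓ2 a b t ht hy hy' hb
  obtain ⟨F, hF1, hF2, hF3, hF4⟩ := key (V : Set R4) G r V.isOpen hGc hGi hr hr0 hrc hrV hball
    (fun z hz hz0 => by
      obtain ⟨x, rfl⟩ := hin z hz
      exact hGLD x (hrz x hz0)) hcr'
  have hFW : ∀ x : openSubset V, ∃ y : openSubset W, incl W y = F (incl V x) := by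
    intro x
    have h1 : F (incl V x) ∈ G '' (V : Set R4) := by
      rw [← hF4]
      exact ⟨_, hmem x, rfl⟩
    obtain ⟨z, hz, hzy⟩ := h1
    obtain ⟨w, rfl⟩ := hin z hz
    exact ⟨g w, by rw [← hzy, hGV]⟩
  choose Φ hΦ using hFW
  have hinj : Injective Φ := by
    intro x y hxy
    apply hiV
    refine hF3 (hmem x) (hmem y) ?_
    rw [← hΦ, ← hΦ, hxy]
  have hsurj : Surjective Φ := by
    intro y
    have h1 : incl W y ∈ F '' (V : Set R4) := by
      rw [hF4]
      refine ⟨incl V (g.symm y), hmem _, ?_⟩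
      rw [hGV, g.apply_symm_apply]
    obtain ⟨z, hz, hzy⟩ := h1
    obtain ⟨x, rfl⟩ := hin z hz
    refine ⟨x, hiW ?_⟩
    rw [hΦ, hzy]
  have hLD : ∀ x, LocDiff Φ x := by
    intro x
    have h1 : Pool.Agent.Y522.LD 4 (fun z : openSubset V => F (incl V z)) x :=
      Pool.Agent.R769.LD_restrict V (f := F) (x := x) (hF2 _ (hmem x))
    have h2 : Pool.Agent.Y522.LD 4 (fun z : openSubset V => incl W (Φ z)) x :=
      h1.congr (Eventually.of_forall fun z => hΦ z)
    have hΦc : ContinuousAt Φ x := by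
      have hemb : IsEmbedding (incl W) := IsEmbedding.subtypeVal
      rw [hemb.isInducing.continuousAt_iff]
      exact h2.continuousAt
    obtain ⟨p, hp, hpx, hp1, -⟩ := (hLW (Φ x)).exists_inverse
    have h3 : Pool.Agent.Y522.LD 4 (fun z : openSubset V => p (incl W (Φ z))) x :=
      Pool.Agent.Y522.LD.comp_fun (g := p) (f := fun z : openSubset V => incl W (Φ z)) hp h2
    refine Pool.Agent.Y522.LD.congr h3 ?_
    have hp1' : ∀ᶠ y in 𝓝 (Φ x), p (incl W y) = y := hp1
    filter_upwards [hΦc.eventually hp1'] with z hz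
    exact hz.symm
  have hl : IsLocalDiffeomorph (𝓡 4) (𝓡 4) ∞ Φ := hLD
  refine ⟨hl.diffeomorphOfBijective ⟨hinj, hsurj⟩, incl V ⁻¹' tsupport r, ?_, fun x hx => ?_⟩
  · have hemb : IsEmbedding (incl V) := IsEmbedding.subtypeVal
    refine hemb.isInducing.isCompact_preimage_iff ?_ |>.2 hrc
    intro z hz
    exact hin z (hrV hz)
  · change Φ x = g x
    apply hiW
    rw [hΦ, hF1 _ hx, hGV]

theorem smoothable_coarse : ∃ ε₀ κ : ℝ, 0 < ε₀ ∧ 0 < κ ∧ ∀ (M N : Mfd4) (g : M ≃ₜ N),
    Coarse ε₀ κ M N g → Smoothable M N g := by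
  obtain ⟨ε₀, hε₀, happ⟩ := approx_of_tame
  obtain ⟨κ, hκ, hmon⟩ := smoothable_monotone
  refine ⟨ε₀, κ, hε₀, hκ, fun M N g hg => ?_⟩
  induction hg with
  | tame g hg => exact smoothable_tame happ g hg
  | monotone g hg => exact hmon _ _ g hg
  | inverse g _ ih => exact smoothable_symm g ih
  | composition g h _ _ ih1 ih2 => exact smoothable_trans g h ih1 ih2
  | extension g g' i j hi hj hid hjd hij hb _ ih =>
    exact smoothable_extend g g' i j hi hid hj.injective hjd hij hb ih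

end Pool.Agent.K7.H28.CO.T4
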