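import Pool.Agent.K7.H28.CO.O4

/-!
# Local diffeomorphisms of open sets which agree with a proper map off a compact set
-/

set_option autoImplicit false

open Set Filter Topology Metric Function
open scoped Manifold ContDiff

noncomputable section

namespace Pool.Agent.K7.H28.CO

open Pool.Agent.Y522

variable {n : ℕ}

section

variable {V K : Set (E n)} {H F : E n → E n}

theorem goodP (hV : IsOpen V) (hK : IsCompact K) (hKV : K ⊆ V) (hHc : ContinuousOn H V)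
    (hHi : ∀ x ∈ V, x ∉ K → ∀ x' ∈ V, H x' = H x → x' = x) (hHo : IsOpen (H '' V))
    (hHp : ∀ y ∈ H '' V, ∃ C ⊆ V, IsCompact C ∧ ∀ᶠ y' in 𝓝 y, ∀ x ∈ V, H x = y' → x ∈ C)
    (hFL : ∀ x ∈ V, LD n F x) (heq : ∀ x ∈ V, x ∉ K → F x = H x) {y : E n}
    (hy : Good V H F y) : ∀ᶠ y' in 𝓝 y, Good V H F y' := by
  have hFc : ContinuousOn F V := fun x hx => (hFL x hx).continuousAt.continuousWithinAt
  by_cases hyW : y ∈ H '' V
  · obtain ⟨x₀, hx₀, hxy, hu⟩ := hy.1 hyW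
    obtain ⟨C, hCV, hC, hCn⟩ := hHp y hyW
    obtain ⟨U, hU, hUi⟩ := (hFL x₀ hx₀).eventually_injOn
    obtain ⟨U₀, hU₀U, hU₀o, hxU₀⟩ := _root_.mem_nhds_iff.1 hU
    have h1 : F '' (U₀ ∩ V) ∈ 𝓝 y := by
      rw [← hxy]
      exact (hFL x₀ hx₀).image_mem_nhds (inter_mem (hU₀o.mem_nhds hxU₀) (hV.mem_nhds hx₀))
    have hKC : K ∪ C ⊆ V := union_subset hKV hCV
    have h2 := off_near ((hK.union hC).diff hU₀o) (hFc.mono (sdiff_subset.trans hKC)) (y := y)
      fun x hx hxy' => hx.2 (by rw [hu x (hKC hx.1) hxy']; exact hxU₀)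
    filter_upwards [h1, h2, hHo.mem_nhds hyW, hCn] with y' g1 g2 g3 g4
    refine ⟨fun _ => ?_, fun hn => absurd g3 hn⟩
    obtain ⟨z, ⟨hzU, hzV⟩, hzy⟩ := g1
    refine ⟨z, hzV, hzy, fun x' hx' hxy' => ?_⟩
    have hin : x' ∈ U₀ := by
      by_contra hn
      by_cases hxK : x' ∈ K
      · exact g2 x' ⟨Or.inl hxK, hn⟩ hxy'
      · refine g2 x' ⟨Or.inr (g4 x' hx' ?_), hn⟩ hxy'
        rw [← heq x' hx' hxK]
        exact hxy'
    exact hUi (hU₀U hin) (hU₀U hzU) (hxy'.trans hzy.symm)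
  · have hno := hy.2 hyW
    have h1 := off_near hK (hFc.mono hKV) (y := y) fun x hx => hno x (hKV hx)
    have h2 := off_near hK (hHc.mono hKV) (y := y) fun x hx hxy => hyW ⟨x, hKV hx, hxy⟩
    filter_upwards [h1, h2] with y' g1 g2
    refine ⟨?_, fun hn x hx hxy => ?_⟩
    · rintro ⟨x₂, hx₂, hx₂y⟩
      have hx₂K : x₂ ∉ K := fun h => g2 x₂ h hx₂y
      refine ⟨x₂, hx₂, by rw [heq x₂ hx₂ hx₂K]; exact hx₂y, fun x' hx' hxy' => ?_⟩
      have hx'K : x' ∉ K := fun h => g1 x' h hxy'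
      exact hHi x₂ hx₂ hx₂K x' hx' (by rw [← heq x' hx' hx'K, hxy', hx₂y])
    · have hxK : x ∉ K := fun h => g1 x h hxy
      exact hn ⟨x, hx, by rw [← heq x hx hxK]; exact hxy⟩

theorem badP (hV : IsOpen V) (hK : IsCompact K) (hKV : K ⊆ V) (hHc : ContinuousOn H V)
    (hHo : IsOpen (H '' V))
    (hHp : ∀ y ∈ H '' V, ∃ C ⊆ V, IsCompact C ∧ ∀ᶠ y' in 𝓝 y, ∀ x ∈ V, H x = y' → x ∈ C)
    (hFL : ∀ x ∈ V, LD n F x) (heq : ∀ x ∈ V, x ∉ K → F x = H x) {y : E n}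
    (hy : ¬ Good V H F y) : ∀ᶠ y' in 𝓝 y, ¬ Good V H F y' := by
  have hFc : ContinuousOn F V := fun x hx => (hFL x hx).continuousAt.continuousWithinAt
  have two : ∀ x ∈ V, ∀ x' ∈ V, x ≠ x' → F x = y → F x' = y → ∀ᶠ y' in 𝓝 y, ∃ z ∈ V, ∃ z' ∈ V,
      z ≠ z' ∧ F z = y' ∧ F z' = y' := by
    intro x hx x' hx' hne hxy hxy'
    obtain ⟨A, B, hA, hB, hxA, hxB, hAB⟩ := t2_separation hne
    have g1 : F '' (A ∩ V) ∈ 𝓝 y := by
      rw [← hxy]
      exact (hFL x hx).image_mem_nhds (inter_mem (hA.mem_nhds hxA) (hV.mem_nhds hx))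
    have g2 : F '' (B ∩ V) ∈ 𝓝 y := by
      rw [← hxy']
      exact (hFL x' hx').image_mem_nhds (inter_mem (hB.mem_nhds hxB) (hV.mem_nhds hx'))
    filter_upwards [g1, g2] with y' hy1 hy2
    obtain ⟨a, ⟨haA, ha1⟩, hay⟩ := hy1
    obtain ⟨b, ⟨hbB, hb1⟩, hby⟩ := hy2
    exact ⟨a, ha1, b, hb1, fun h => Set.disjoint_left.1 hAB haA (by rw [h]; exact hbB), hay, hby⟩
  by_cases hyW : y ∈ H '' V
  · by_cases hex : ∃ x ∈ V, F x = y
    · obtain ⟨x, hx, hxy⟩ := hex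
      have h1 : ∃ x' ∈ V, F x' = y ∧ x ≠ x' := by
        by_contra hcon
        push Not at hcon
        exact hy ⟨fun _ => ⟨x, hx, hxy, fun x' hx' hxy' => (hcon x' hx' hxy').symm⟩,
          fun hn => absurd hyW hn⟩
      obtain ⟨x', hx', hxy', hne⟩ := h1
      filter_upwards [two x hx x' hx' hne hxy hxy', hHo.mem_nhds hyW] with y' g1 g2 hgood
      obtain ⟨z, hz, z', hz', hzz, hzy, hzy'⟩ := g1
      obtain ⟨w, _, _, hw⟩ := hgood.1 g2
      exact hzz ((hw z hz hzy).trans (hw z' hz' hzy').symm)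
    · push Not at hex
      obtain ⟨C, hCV, hC, hCn⟩ := hHp y hyW
      have hKC : K ∪ C ⊆ V := union_subset hKV hCV
      have h1 := off_near (hK.union hC) (hFc.mono hKC) (y := y) fun x hx => hex x (hKC hx)
      filter_upwards [h1, hCn, hHo.mem_nhds hyW] with y' g1 g2 g3 hgood
      obtain ⟨w, hw, hwy, _⟩ := hgood.1 g3
      by_cases hwK : w ∈ K
      · exact g1 w (Or.inl hwK) hwy
      · refine g1 w (Or.inr (g2 w hw ?_)) hwy
        rw [← heq w hw hwK]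
        exact hwy
  · have hex : ∃ x ∈ V, F x = y := by
      by_contra hcon
      push Not at hcon
      exact hy ⟨fun h => absurd h hyW, fun _ => hcon⟩
    obtain ⟨x₀, hx₀, hxy⟩ := hex
    obtain ⟨r, hr, hrV⟩ := Metric.nhds_basis_closedBall.mem_iff.1 (hV.mem_nhds hx₀)
    have hC : IsCompact (closedBall x₀ r ∪ K) := (isCompact_closedBall _ _).union hK
    have hCV : closedBall x₀ r ∪ K ⊆ V := union_subset hrV hKV
    have h1 := off_near hC (hHc.mono hCV) (y := y) fun x hx hxy' => hyW ⟨x, hCV hx, hxy'⟩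
    have h2 : F '' (closedBall x₀ r) ∈ 𝓝 y := by
      rw [← hxy]
      exact (hFL x₀ hx₀).image_mem_nhds (closedBall_mem_nhds _ hr)
    filter_upwards [h1, h2] with y' g1 g2 hgood
    obtain ⟨z, hz, hzy⟩ := g2
    by_cases hy'W : y' ∈ H '' V
    · obtain ⟨w, hw, hwy, hwu⟩ := hgood.1 hy'W
      obtain ⟨x₂, hx₂, hx₂y⟩ := hy'W
      have hx₂C : x₂ ∉ closedBall x₀ r ∪ K := fun h => g1 x₂ h hx₂y
      have e1 : x₂ = w := hwu x₂ hx₂ (by
        rw [heq x₂ hx₂ fun h => hx₂C (Or.inr h)]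
        exact hx₂y)
      have e2 : z = w := hwu z (hrV hz) hzy
      exact hx₂C (Or.inl (by rw [e1, ← e2]; exact hz))
    · exact hgood.2 hy'W z (hrV hz) hzy

/-- A local diffeomorphism of an open set `V` which agrees off a compact set `K` with a map `H`, proper as
a map to its open image and injective off `K`, is injective and has the same image. -/
theorem fillP [Nontrivial (E n)] (hV : IsOpen V) (hK : IsCompact K) (hKV : K ⊆ V)
    (hHc : ContinuousOn H V) (hHi : ∀ x ∈ V, x ∉ K → ∀ x' ∈ V, H x' = H x → x' = x)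
    (hHo : IsOpen (H '' V))
    (hHp : ∀ y ∈ H '' V, ∃ C ⊆ V, IsCompact C ∧ ∀ᶠ y' in 𝓝 y, ∀ x ∈ V, H x = y' → x ∈ C)
    (hFL : ∀ x ∈ V, LD n F x) (heq : ∀ x ∈ V, x ∉ K → F x = H x) :
    InjOn F V ∧ F '' V = H '' V := by
  have hFc : ContinuousOn F V := fun x hx => (hFL x hx).continuousAt.continuousWithinAt
  have hclopen : IsClopen {y | Good V H F y} := by
    constructor
    · rw [← isOpen_compl_iff, isOpen_iff_mem_nhds]
      intro y hy
      exact badP hV hK hKV hHc hHo hHp hFL heq hy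
    · rw [isOpen_iff_mem_nhds]
      intro y hy
      exact goodP hV hK hKV hHc hHi hHo hHp hFL heq hy
  have hne : ∃ y, Good V H F y := by
    have hc : IsCompact (F '' K ∪ H '' K) :=
      (hK.image_of_continuousOn (hFc.mono hKV)).union (hK.image_of_continuousOn (hHc.mono hKV))
    have hcu : F '' K ∪ H '' K ≠ univ := by
      intro h
      rw [h] at hc
      exact noncompact_univ (E n) hc
    obtain ⟨y, hy⟩ := (ne_univ_iff_exists_notMem _).1 hcu
    have hyF : ∀ x ∈ K, F x ≠ y := fun x hx hxy => hy (Or.inl ⟨x, hx, hxy⟩)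
    have hyH : ∀ x ∈ K, H x ≠ y := fun x hx hxy => hy (Or.inr ⟨x, hx, hxy⟩)
    refine ⟨y, ?_, fun hn x hx hxy => ?_⟩
    · rintro ⟨x₂, hx₂, hx₂y⟩
      have hx₂K : x₂ ∉ K := fun h => hyH x₂ h hx₂y
      refine ⟨x₂, hx₂, by rw [heq x₂ hx₂ hx₂K]; exact hx₂y, fun x' hx' hxy' => ?_⟩
      have hx'K : x' ∉ K := fun h => hyF x' h hxy'
      exact hHi x₂ hx₂ hx₂K x' hx' (by rw [← heq x' hx' hx'K, hxy', hx₂y])
    · have hxK : x ∉ K := fun h => hyF x h hxy
      exact hn ⟨x, hx, by rw [← heq x hx hxK]; exact hxy⟩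
  have hall : ∀ y, Good V H F y := by
    have h1 := hclopen.eq_univ hne
    intro y
    have h2 : y ∈ {y | Good V H F y} := by
      rw [h1]
      exact mem_univ y
    exact h2
  have himg : F '' V = H '' V := by
    ext y
    constructor
    · rintro ⟨x, hx, hxy⟩
      by_contra hn
      exact (hall y).2 hn x hx hxy
    · intro hy
      obtain ⟨x, hx, hxy, _⟩ := (hall y).1 hy
      exact ⟨x, hx, hxy⟩
  refine ⟨fun x hx x' hx' hxx => ?_, himg⟩
  have h1 : F x ∈ H '' V := by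
    rw [← himg]
    exact ⟨x, hx, rfl⟩
  obtain ⟨w, _, _, hw⟩ := (hall _).1 h1
  exact (hw x hx rfl).trans (hw x' hx' hxx.symm).symm

end

end Pool.Agent.K7.H28.CO
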