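import Pool.Agent.K7.H28.CO.O3

/-!
# A class of proper maps between smooth 4-manifolds: definitions
-/

set_option autoImplicit false

open Set Filter Topology Metric Function
open scoped Manifold ContDiff

noncomputable section

namespace Pool.Agent.K7.H28.CO.T4

open Pool.Agent.K7.H28.AF.T4

attribute [-instance] TopCat.of.chartedSpace

/-- The map `h` from `V` to `W`, open subsets of `ℝ⁴`, is coarsely monotone at `x` at the scale `r x`, with
precision `κ`: for some `0 < m ≤ 1` the function `r` varies slowly near `x` (with Lipschitz constant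
`κ m`), and for every unit vector `u` there is a linear functional `ℓ` such that, on the ball `B` of radius
`r x` about `x`, `ℓ (h y - h x)` is bounded by `r x` and the increments of `ℓ ∘ h` in the direction `u` are
at least `m t - κ m (r x)`, where `t` is the length of the step. -/
def MapMonotoneAt (κ : ℝ) {V W : TopologicalSpace.Opens R4}
    (h : openSubset V → openSubset W) (r : R4 → ℝ) (x : openSubset V) : Prop :=
  ∃ m : ℝ, 0 < m ∧ m ≤ 1 ∧
    (∀ y : R4, ‖y - incl V x‖ ≤ r (incl V x) →
      |r y - r (incl V x)| ≤ κ * m * ‖y - incl V x‖) ∧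
    ∀ u : R4, ‖u‖ = 1 → ∃ ℓ : R4 →L[ℝ] ℝ,
      (∀ y : openSubset V, ‖incl V y - incl V x‖ ≤ r (incl V x) →
        |ℓ (incl W (h y) - incl W (h x))| ≤ r (incl V x)) ∧
      ∀ (y y' : openSubset V) (t : ℝ), 0 < t → ‖incl V y - incl V x‖ ≤ r (incl V x) →
        ‖incl V y' - incl V x‖ ≤ r (incl V x) → incl V y' = incl V y + t • u →
        m * t - κ * m * r (incl V x) ≤ ℓ (incl W (h y') - incl W (h y))

/-- The map `g : M → N` is coarsely monotone at one variable scale: it is proper and surjective, and there
are open embeddings `i : V → M` and `j : W → N` of open subsets of `ℝ⁴`, local diffeomorphisms with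
`g⁻¹(j W) = i V`, and a smooth function `r ≥ 0` with compact support in `V`, such that the balls of radius
`r x` about `x` are contained in `V`, `g` is a local diffeomorphism at all points which are not in
`i {r > 0}`, the points `p` which are not in the image of the support of `r` are the only preimages of
`g p`, and in the coordinates given by `i` and `j` the map `g` is coarsely monotone at `x` at the scale
`r x` if `r x > 0`. -/
def MonotoneMap (κ : ℝ) {M N : Mfd4} (g : M → N) : Prop :=
  IsProperMap g ∧ Surjective g ∧
  ∃ (V W : TopologicalSpace.Opens R4) (i : openSubset V → M) (j : openSubset W → N)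
    (h : openSubset V → openSubset W) (r : R4 → ℝ),
    IsOpenEmbedding i ∧ (∀ x, LocDiff i x) ∧ IsOpenEmbedding j ∧ (∀ y, LocDiff j y) ∧
    g ⁻¹' range j = range i ∧ (∀ x, j (h x) = g (i x)) ∧
    ContDiff ℝ ∞ r ∧ (∀ x, 0 ≤ r x) ∧ IsCompact (tsupport r) ∧
    tsupport r ⊆ (V : Set R4) ∧ (∀ x, 0 < r x → closedBall x (r x) ⊆ (V : Set R4)) ∧
    (∀ p : M, (∀ x : openSubset V, 0 < r (incl V x) → i x ≠ p) → LocDiff g p) ∧
    (∀ p : M, (∀ x : openSubset V, incl V x ∈ tsupport r → i x ≠ p) →
      ∀ p' : M, g p' = g p → p' = p) ∧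
    ∀ x : openSubset V, 0 < r (incl V x) → MapMonotoneAt κ h r x

/-- The least class of maps between smooth 4-manifolds which contains the homeomorphisms of the class
`Coarse ε₀ κ` and the maps which are coarsely monotone at one variable scale, and which is closed under
compositions. -/
inductive CoarseMap (ε₀ κ : ℝ) : (M N : Mfd4) → (M → N) → Prop
  | homeo {M N : Mfd4} (g : M ≃ₜ N) : Coarse ε₀ κ M N g → CoarseMap ε₀ κ M N g
  | monotone {M N : Mfd4} (g : M → N) : MonotoneMap κ g → CoarseMap ε₀ κ M N g
  | composition {M N P : Mfd4} (g : M → N) (h : N → P) :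
      CoarseMap ε₀ κ M N g → CoarseMap ε₀ κ N P h → CoarseMap ε₀ κ M P (fun x => h (g x))

end Pool.Agent.K7.H28.CO.T4
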