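import Pool.Agent.K7.H28.CO.O5
import Pool.Agent.K7.H28.CO.O6

/-!
# The maps of the class can be replaced by diffeomorphisms
-/

set_option autoImplicit false

open Set Filter Topology Metric Function
open scoped Manifold ContDiff

noncomputable section

namespace Pool.Agent.K7.H28.CO

open Pool.Agent.Y522 Pool.Agent.Y954.SH Pool.Agent.K7.H28.CB

/-- replacement of a coarsely monotone map of an open set by a smooth embedding -/
theorem coarse_replaceP (n : ℕ) [Nontrivial (E n)] : ∃ κ : ℝ, 0 < κ ∧ ∀ (V : Set (E n))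
    (H : E n → E n) (r : E n → ℝ), IsOpen V → ContinuousOn H V →
    (∀ x ∈ V, x ∉ tsupport r → ∀ x' ∈ V, H x' = H x → x' = x) → IsOpen (H '' V) →
    (∀ y ∈ H '' V, ∃ C ⊆ V, IsCompact C ∧ ∀ᶠ y' in 𝓝 y, ∀ x ∈ V, H x = y' → x ∈ C) →
    ContDiff ℝ ∞ r →
    (∀ x, 0 ≤ r x) → IsCompact (tsupport r) → tsupport r ⊆ V →
    (∀ x, 0 < r x → closedBall x (r x) ⊆ V) →
    (∀ x ∈ V, r x = 0 → LD n H x) → (∀ x, 0 < r x → CoarseAt κ H r x) →
    ∃ F : E n → E n, (∀ x, x ∉ tsupport r → F x = H x) ∧ (∀ x ∈ V, LD n F x) ∧ InjOn F V ∧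
      F '' V = H '' V := by
  obtain ⟨κ, hκ, key⟩ := coarse_open n
  refine ⟨κ, hκ, fun V H r hV hHc hHi hHo hHp hr hr0 hrc hrV hball hrz hcr => ?_⟩
  obtain ⟨F, h1, h2⟩ := key V H r hV hHc hr hr0 hrc hrV hball hrz hcr
  obtain ⟨h3, h4⟩ := fillP hV hrc hrV hHc hHi hHo hHp h2 fun x _ hx => h1 x hx
  exact ⟨F, h1, h2, h3, h4⟩

end Pool.Agent.K7.H28.CO

namespace Pool.Agent.K7.H28.CO.T4

open Pool.Agent.K7.H28.AF.T4

attribute [-instance] TopCat.of.chartedSpace

theorem monotone_map : ∃ κ : ℝ, 0 < κ ∧ ∀ (M N : Mfd4) (g : M → N), MonotoneMap κ g →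
    ∃ (Φ : Diffeomorph (𝓡 4) (𝓡 4) M N ∞) (C : Set M), IsCompact C ∧ ∀ x, x ∉ C → Φ x = g x := by
  classical
  have hnt : Nontrivial R4 := inferInstance
  obtain ⟨κ, hκ, key⟩ := Pool.Agent.K7.H28.CO.coarse_replaceP 4
  refine ⟨κ, hκ, ?_⟩
  rintro M N g ⟨hgp, hgs, V, W, i, j, h, r, hi, hiL, hj, hjL, hpre, hjh, hr, hr0, hrc, hrV, hball,
    hgL, hgi, hcr⟩
  have hT2 : T2Space M := M.hausdorff
  have hT2N : T2Space N := N.hausdorff
  obtain ⟨G, hGd⟩ : ∃ G : R4 → R4, G = fun z =>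
      if hz : z ∈ V then incl W (h (show openSubset V from (⟨z, hz⟩ : V))) else 0 := ⟨_, rfl⟩
  have hGV : ∀ x : openSubset V, G (incl V x) = incl W (h x) := by
    intro x
    rw [hGd]
    exact dif_pos (show V from x).2
  have hin : ∀ z ∈ (V : Set R4), ∃ x : openSubset V, incl V x = z := fun z hz =>
    ⟨(⟨z, hz⟩ : V), rfl⟩
  have hinW : ∀ z ∈ (W : Set R4), ∃ x : openSubset W, incl W x = z := fun z hz =>
    ⟨(⟨z, hz⟩ : W), rfl⟩
  have hmem : ∀ x : openSubset V, incl V x ∈ (V : Set R4) := fun x => (show V from x).2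
  have hmemW : ∀ x : openSubset W, incl W x ∈ (W : Set R4) := fun x => (show W from x).2
  have hiV : Injective (incl V) := Subtype.val_injective
  have hiW : Injective (incl W) := Subtype.val_injective
  have hcW : Continuous (incl W) := continuous_subtype_val
  have hcV : Continuous (incl V) := continuous_subtype_val
  have hhc : Continuous h := by
    rw [hj.isInducing.continuous_iff]
    have : (j ∘ h) = fun x => g (i x) := funext hjh
    rw [this]
    exact hgp.continuous.comp hi.continuous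
  have hGc : ContinuousOn G (V : Set R4) := by
    rw [continuousOn_iff_continuous_domRestrict]
    have : (V : Set R4).domRestrict G = fun x : V => incl W (h (show openSubset V from x)) := by
      funext x
      exact hGV x
    rw [this]
    exact hcW.comp hhc
  -- the image of `V` is `W`
  have hsurjh : Surjective h := by
    intro y
    obtain ⟨p, hp⟩ := hgs (j y)
    have h1 : p ∈ range i := by
      rw [← hpre]
      exact ⟨y, hp.symm⟩
    obtain ⟨x, rfl⟩ := h1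
    refine ⟨x, hj.injective ?_⟩
    rw [hjh, hp]
  have hGimg : G '' (V : Set R4) = (W : Set R4) := by
    ext z
    constructor
    · rintro ⟨a, ha, rfl⟩
      obtain ⟨x, rfl⟩ := hin a ha
      rw [hGV]
      exact hmemW _
    · intro hz
      obtain ⟨y, rfl⟩ := hinW z hz
      obtain ⟨x, rfl⟩ := hsurjh y
      exact ⟨incl V x, hmem x, hGV x⟩
  have hGi : ∀ x ∈ (V : Set R4), x ∉ tsupport r → ∀ x' ∈ (V : Set R4), G x' = G x → x' = x := by
    intro a ha hna b hb hab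
    obtain ⟨x, rfl⟩ := hin a ha
    obtain ⟨y, rfl⟩ := hin b hb
    rw [hGV, hGV] at hab
    have h1 := hiW hab
    have h2 : g (i y) = g (i x) := by rw [← hjh, ← hjh, h1]
    have h3 := hgi (i x) (fun z hz hzx => hna (by rw [← hi.injective hzx]; exact hz)) (i y) h2
    rw [hi.injective h3]
  have hGp : ∀ y ∈ G '' (V : Set R4), ∃ C ⊆ (V : Set R4), IsCompact C ∧
      ∀ᶠ y' in 𝓝 y, ∀ x ∈ (V : Set R4), G x = y' → x ∈ C := by
    intro y hy
    rw [hGimg] at hy
    obtain ⟨w, rfl⟩ := hinW y hy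
    have hlc : LocallyCompactSpace N := ChartedSpace.locallyCompactSpace R4 N
    obtain ⟨Q, hQc, hQn, hQj⟩ : ∃ Q : Set N, IsCompact Q ∧ Q ∈ 𝓝 (j w) ∧ Q ⊆ range j := by
      obtain ⟨Q, hQ1, hQ2, hQ3⟩ := local_compact_nhds (hj.isOpen_range.mem_nhds ⟨w, rfl⟩)
      exact ⟨Q, hQ3, hQ1, hQ2⟩
    have h1 : IsCompact (g ⁻¹' Q) := hgp.isCompact_preimage hQc
    have h2 : g ⁻¹' Q ⊆ range i := by
      rw [← hpre]
      exact preimage_mono hQj
    have h3 : IsCompact (i ⁻¹' (g ⁻¹' Q)) := hi.isEmbedding.isInducing.isCompact_preimage_iff h2 |>.2 h1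
    refine ⟨incl V '' (i ⁻¹' (g ⁻¹' Q)), ?_, h3.image hcV, ?_⟩
    · rintro _ ⟨x, -, rfl⟩
      exact hmem x
    · have h4 : j ⁻¹' Q ∈ 𝓝 w := hj.continuous.continuousAt hQn
      have h5 : incl W '' (j ⁻¹' Q) ∈ 𝓝 (incl W w) := by
        have hemb : IsOpenEmbedding (incl W) := W.isOpen.isOpenEmbedding_subtypeVal
        exact hemb.image_mem_nhds.2 h4
      filter_upwards [h5] with y' hy' a ha hay
      obtain ⟨x, rfl⟩ := hin a ha
      rw [hGV] at hay
      obtain ⟨w', hw', hw'y⟩ := hy'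
      refine ⟨x, ?_, rfl⟩
      have h6 : h x = w' := hiW (hay.trans hw'y.symm)
      change g (i x) ∈ Q
      rw [← hjh, h6]
      exact hw'
  have hLW : ∀ y : openSubset W, Pool.Agent.Y522.LD 4 (incl W) y := fun y =>
    Pool.Agent.R769.LD_val W y
  have hhL : ∀ x : openSubset V, LocDiff g (i x) → LocDiff h x := by
    intro x hx
    have h1 : Pool.Agent.Y522.LD 4 (fun z => g (i z)) x :=
      Pool.Agent.Y522.LD.comp_fun (g := g) (f := i) hx (hiL x)
    obtain ⟨p, hp, hpx, hp1, -⟩ := Pool.Agent.Y522.LD.exists_inverse (n := 4) (hjL (h x))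
    have hp' : Pool.Agent.Y522.LD 4 p (g (i x)) := by
      rw [← hjh]
      exact hp
    have h3 : Pool.Agent.Y522.LD 4 (fun z : openSubset V => p (g (i z))) x :=
      Pool.Agent.Y522.LD.comp_fun (g := p) (f := fun z : openSubset V => g (i z)) hp' h1
    refine Pool.Agent.Y522.LD.congr h3 ?_
    have hp1' : ∀ᶠ y in 𝓝 (h x), p (j y) = y := hp1
    filter_upwards [hhc.continuousAt.eventually hp1'] with z hz
    rw [← hjh]
    exact hz.symm
  have hGLD : ∀ x : openSubset V, LocDiff h x → Pool.Agent.Y522.LD 4 G (incl V x) := by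
    intro x hx
    apply Pool.Agent.R769.LD_of_restrict V
    have h1 : Pool.Agent.Y522.LD 4 (fun z : openSubset V => incl W (h z)) x :=
      Pool.Agent.Y522.LD.comp_fun (g := incl W) (f := h) (hLW _) hx
    exact h1.congr (Eventually.of_forall fun z => hGV z)
  have hcr' : ∀ x, 0 < r x → Pool.Agent.K7.H28.CB.CoarseAt κ G r x := by
    intro z hz
    obtain ⟨x, rfl⟩ := hin z (hrV (subset_tsupport _ (mem_support.2 hz.ne')))
    obtain ⟨m, hm0, hm1, hm2, hm3⟩ := hcr x hz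
    refine ⟨m, hm0, hm1, hm2, fun u hu => ?_⟩
    obtain ⟨ℓ, hℓ1, hℓ2⟩ := hm3 u hu
    have hbx : ∀ y : R4, ‖y - incl V x‖ ≤ r (incl V x) → ∃ y' : openSubset V, incl V y' = y :=
      fun y hy => hin y (hball _ hz (by rwa [mem_closedBall, dist_eq_norm]))
    refine ⟨ℓ, fun y hy => ?_, fun y t ht hy hy' => ?_⟩
    · obtain ⟨y', rfl⟩ := hbx y hy
      rw [hGV, hGV]
      exact hℓ1 y' hy
    · obtain ⟨a, rfl⟩ := hbx y hy
      obtain ⟨b, hb⟩ := hbx _ hy'
      rw [← hb] at hy'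
      rw [← hb, hGV, hGV]
      exact hℓ2 a b t ht hy hy' hb
  obtain ⟨F, hF1, hF2, hF3, hF4⟩ := key (V : Set R4) G r V.isOpen hGc hGi
    (by rw [hGimg]; exact W.isOpen) hGp hr hr0 hrc hrV hball
    (fun z hz hz0 => by
      obtain ⟨x, rfl⟩ := hin z hz
      refine hGLD x (hhL x (hgL (i x) fun y hy hyx => ?_))
      rw [hi.injective hyx, hz0] at hy
      exact lt_irrefl _ hy) hcr'
  rw [hGimg] at hF4
  have hFW : ∀ x : openSubset V, ∃ y : openSubset W, incl W y = F (incl V x) := by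
    intro x
    have h1 : F (incl V x) ∈ (W : Set R4) := by
      rw [← hF4]
      exact ⟨_, hmem x, rfl⟩
    exact hinW _ h1
  choose f hf using hFW
  have hfinj : Injective f := by
    intro x y hxy
    apply hiV
    refine hF3 (hmem x) (hmem y) ?_
    rw [← hf, ← hf, hxy]
  have hfsurj : Surjective f := by
    intro y
    have h1 : incl W y ∈ F '' (V : Set R4) := by
      rw [hF4]
      exact hmemW y
    obtain ⟨z, hz, hzy⟩ := h1
    obtain ⟨x, rfl⟩ := hin z hz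
    refine ⟨x, hiW ?_⟩
    rw [hf, hzy]
  have hfLD : ∀ x, LocDiff f x := by
    intro x
    have h1 : Pool.Agent.Y522.LD 4 (fun z : openSubset V => F (incl V z)) x :=
      Pool.Agent.R769.LD_restrict V (f := F) (x := x) (hF2 _ (hmem x))
    have h2 : Pool.Agent.Y522.LD 4 (fun z : openSubset V => incl W (f z)) x :=
      h1.congr (Eventually.of_forall fun z => hf z)
    have hΦc : ContinuousAt f x := by
      have hemb : IsEmbedding (incl W) := IsEmbedding.subtypeVal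
      rw [hemb.isInducing.continuousAt_iff]
      exact h2.continuousAt
    obtain ⟨p, hp, hpx, hp1, -⟩ := (hLW (f x)).exists_inverse
    have h3 : Pool.Agent.Y522.LD 4 (fun z : openSubset V => p (incl W (f z))) x :=
      Pool.Agent.Y522.LD.comp_fun (g := p) (f := fun z : openSubset V => incl W (f z)) hp h2
    refine Pool.Agent.Y522.LD.congr h3 ?_
    have hp1' : ∀ᶠ y in 𝓝 (f x), p (incl W y) = y := hp1
    filter_upwards [hΦc.eventually hp1'] with z hz
    exact hz.symm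
  have hfh : ∀ x : openSubset V, incl V x ∉ tsupport r → f x = h x := by
    intro x hx
    apply hiW
    rw [hf, hF1 _ hx, hGV]
  -- the global map
  obtain ⟨C', hC'd⟩ : ∃ C' : Set (openSubset V), C' = incl V ⁻¹' tsupport r := ⟨_, rfl⟩
  have hC' : IsCompact C' := by
    rw [hC'd]
    have hemb : IsEmbedding (incl V) := IsEmbedding.subtypeVal
    refine hemb.isInducing.isCompact_preimage_iff ?_ |>.2 hrc
    intro z hz
    exact hin z (hrV hz)
  have hgi' : ∀ p : M, p ∉ i '' C' → ∀ p' : M, g p' = g p → p' = p := by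
    intro p hp
    refine hgi p fun x hx hxp => hp ⟨x, ?_, hxp⟩
    rw [hC'd]
    exact hx
  obtain ⟨Φ, hΦd⟩ : ∃ Φ : M → N, Φ = fun x => if hx : x ∈ range i then j (f hx.choose) else g x :=
    ⟨_, rfl⟩
  have hΦi : ∀ z, Φ (i z) = j (f z) := by
    intro z
    have hz : i z ∈ range i := ⟨z, rfl⟩
    have h1 : hz.choose = z := hi.injective hz.choose_spec
    rw [hΦd]
    change (if hz : i z ∈ range i then j (f hz.choose) else g (i z)) = _
    rw [dif_pos hz, h1]
  have hΦn : ∀ x, x ∉ range i → Φ x = g x := fun x hx => by rw [hΦd]; exact dif_neg hx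
  have hoff : ∀ x, x ∉ i '' C' → Φ x = g x := by
    intro x hx
    by_cases hxi : x ∈ range i
    · obtain ⟨z, rfl⟩ := hxi
      rw [hΦi, hfh z fun hz => hx ⟨z, by rw [hC'd]; exact hz, rfl⟩, hjh]
    · exact hΦn x hxi
  have hjr : ∀ x, x ∉ range i → g x ∉ range j := by
    intro x hx hg
    apply hx
    rw [← hpre]
    exact hg
  have hinj : Injective Φ := by
    intro x y hxy
    by_cases hx : x ∈ range i <;> by_cases hy : y ∈ range i
    · obtain ⟨z, rfl⟩ := hx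
      obtain ⟨w, rfl⟩ := hy
      rw [hΦi, hΦi] at hxy
      rw [hfinj (hj.injective hxy)]
    · obtain ⟨z, rfl⟩ := hx
      rw [hΦi, hΦn y hy] at hxy
      exact absurd ⟨_, hxy⟩ (hjr y hy)
    · obtain ⟨w, rfl⟩ := hy
      rw [hΦi, hΦn x hx] at hxy
      exact absurd ⟨_, hxy.symm⟩ (hjr x hx)
    · rw [hΦn x hx, hΦn y hy] at hxy
      refine hgi' y (fun ⟨z, _, hz⟩ => hy ⟨z, hz⟩) x hxy
  have hsurj : Surjective Φ := by
    intro y
    by_cases hy : y ∈ range j
    · obtain ⟨w, rfl⟩ := hy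
      obtain ⟨z, rfl⟩ := hfsurj w
      exact ⟨i z, hΦi z⟩
    · obtain ⟨x, rfl⟩ := hgs y
      refine ⟨x, hΦn x fun hx => hy ?_⟩
      rw [← hpre] at hx
      exact hx
  have hLD : ∀ x, LocDiff Φ x := by
    intro x
    by_cases hx : x ∈ range i
    · obtain ⟨z, rfl⟩ := hx
      have hN : Nonempty (openSubset V) := ⟨z⟩
      obtain ⟨k, hk⟩ : ∃ k : M → openSubset V, ∀ z, k (i z) = z :=
        ⟨invFun i, leftInverse_invFun hi.injective⟩
      have h1 : Pool.Agent.Y522.LD 4 k (i z) :=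
        Pool.Agent.Y522.LD.inverse isOpen_univ (fun x _ => hiL x) (fun x _ => hk x) (mem_univ z)
      have h2 : Pool.Agent.Y522.LD 4 (fun w => j (f w)) (k (i z)) := by
        rw [hk]
        exact Pool.Agent.Y522.LD.comp_fun (g := j) (f := f) (hjL _) (hfLD z)
      have h3 : Pool.Agent.Y522.LD 4 (fun x => j (f (k x))) (i z) :=
        Pool.Agent.Y522.LD.comp_fun (g := fun w => j (f w)) (f := k) h2 h1
      refine Pool.Agent.Y522.LD.congr h3 ?_
      filter_upwards [hi.isOpen_range.mem_nhds ⟨z, rfl⟩] with y hy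
      obtain ⟨w, rfl⟩ := hy
      rw [hΦi, hk]
    · have h1 : x ∉ i '' C' := fun ⟨z, _, hz⟩ => hx ⟨z, hz⟩
      have h2 : LocDiff g x := hgL x fun z _ hz => hx ⟨z, hz⟩
      refine Pool.Agent.Y522.LD.congr h2 ?_
      filter_upwards [(hC'.image hi.continuous).isClosed.isOpen_compl.mem_nhds h1] with y hy
      exact hoff y hy
  have hl : IsLocalDiffeomorph (𝓡 4) (𝓡 4) ∞ Φ := hLD
  exact ⟨hl.diffeomorphOfBijective ⟨hinj, hsurj⟩, i '' C', hC'.image hi.continuous, hoff⟩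

theorem Coarse.mono {ε₀ κ κ' : ℝ} (hκ : κ ≤ κ') {M N : Mfd4} {g : M ≃ₜ N}
    (H : Coarse ε₀ κ M N g) : Coarse ε₀ κ' M N g := by
  induction H with
  | tame g hg => exact Coarse.tame g hg
  | @monotone V W g hg =>
    refine Coarse.monotone g ?_
    obtain ⟨r, hr, hr0, hrc, hrV, hball, hrz, hcr⟩ := hg
    refine ⟨r, hr, hr0, hrc, hrV, hball, hrz, fun x hx => ?_⟩
    obtain ⟨m, hm0, hm1, hm2, hm3⟩ := hcr x hx
    refine ⟨m, hm0, hm1, fun y hy => (hm2 y hy).trans ?_, fun u hu => ?_⟩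
    · exact mul_le_mul_of_nonneg_right (mul_le_mul_of_nonneg_right hκ hm0.le) (norm_nonneg _)
    · obtain ⟨ℓ, hℓ1, hℓ2⟩ := hm3 u hu
      refine ⟨ℓ, hℓ1, fun y y' t ht hy hy' hyy => le_trans ?_ (hℓ2 y y' t ht hy hy' hyy)⟩
      have := mul_le_mul_of_nonneg_right (mul_le_mul_of_nonneg_right hκ hm0.le) hx.le
      linarith
  | inverse g _ ih => exact Coarse.inverse g ih
  | composition g h _ _ ih1 ih2 => exact Coarse.composition g h ih1 ih2
  | extension g g' i j hi hj hid hjd hij hb _ ih =>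
    exact Coarse.extension g g' i j hi hj hid hjd hij hb ih

theorem MonotoneMap.mono {κ κ' : ℝ} (hκ : κ ≤ κ') {M N : Mfd4} {g : M → N}
    (H : MonotoneMap κ g) : MonotoneMap κ' g := by
  obtain ⟨hgp, hgs, V, W, i, j, h, r, hi, hiL, hj, hjL, hpre, hjh, hr, hr0, hrc, hrV, hball,
    hgL, hgi, hcr⟩ := H
  refine ⟨hgp, hgs, V, W, i, j, h, r, hi, hiL, hj, hjL, hpre, hjh, hr, hr0, hrc, hrV, hball,
    hgL, hgi, fun x hx => ?_⟩
  obtain ⟨m, hm0, hm1, hm2, hm3⟩ := hcr x hx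
  refine ⟨m, hm0, hm1, fun y hy => (hm2 y hy).trans ?_, fun u hu => ?_⟩
  · exact mul_le_mul_of_nonneg_right (mul_le_mul_of_nonneg_right hκ hm0.le) (norm_nonneg _)
  · obtain ⟨ℓ, hℓ1, hℓ2⟩ := hm3 u hu
    refine ⟨ℓ, hℓ1, fun y y' t ht hy hy' hyy => le_trans ?_ (hℓ2 y y' t ht hy hy' hyy)⟩
    have := mul_le_mul_of_nonneg_right (mul_le_mul_of_nonneg_right hκ hm0.le) hx.le
    linarith

theorem coarse_map : ∃ ε₀ κ : ℝ, 0 < ε₀ ∧ 0 < κ ∧ ∀ (M N : Mfd4) (g : M → N),
    CoarseMap ε₀ κ M N g → IsProperMap g ∧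
      ∃ (Φ : Diffeomorph (𝓡 4) (𝓡 4) M N ∞) (C : Set M), IsCompact C ∧ ∀ x, x ∉ C → Φ x = g x := by
  obtain ⟨ε₀, κ₁, hε₀, hκ₁, h1⟩ := smoothable_coarse
  obtain ⟨κ₂, hκ₂, h2⟩ := monotone_map
  refine ⟨ε₀, min κ₁ κ₂, hε₀, lt_min hκ₁ hκ₂, fun M N g hg => ?_⟩
  induction hg with
  | @homeo M N g hg => exact ⟨g.isProperMap, h1 M N g (hg.mono (min_le_left _ _))⟩
  | @monotone M N g hg => exact ⟨hg.1, h2 M N g (hg.mono (min_le_right _ _))⟩
  | @composition M N P g h _ _ ih1 ih2 =>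
    obtain ⟨hp1, Φ, C, hC, hoff⟩ := ih1
    obtain ⟨hp2, Ψ, D, hD, hoff2⟩ := ih2
    refine ⟨hp2.comp hp1, Φ.trans Ψ, C ∪ g ⁻¹' D, hC.union (hp1.isCompact_preimage hD),
      fun x hx => ?_⟩
    have e1 : Φ x = g x := hoff x fun h => hx (Or.inl h)
    have e2 : g x ∉ D := fun h => hx (Or.inr h)
    change Ψ (Φ x) = h (g x)
    rw [e1, hoff2 _ e2]

end Pool.Agent.K7.H28.CO.T4
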